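import Pool.Agent.J4H87.K5.Stm

/-!
# K5-CNT: deterministic counts (for helper87)
-/

set_option autoImplicit false

namespace Pool.Agent.J4H18.K5

open Finset
open Pool.Agent.J4H87.K5
open scoped Classical

noncomputable section

variable {n : ℕ}

lemma card_path (B : Finset (Sym2 (Fin n))) (k : ℕ)
    (hk : ∀ x : Fin n, ((univ : Finset (Fin n)).filter (fun y => s(x, y) ∈ B)).card ≤ k)
    (i : Fin 4) (S : Finset (Fin 5 → Fin n))
    (hS : ∀ x ∈ S, s(x 0, x 1) ∈ B ∧ s(x 1, x 2) ∈ B ∧ s(x 2, x 3) ∈ B ∧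
      s(x i.castSucc, x 4) ∈ B) : S.card ≤ k * P4 B := by
  unfold P4
  refine Finset.card_le_mul_card_image_of_maps_to
    (f := fun x : Fin 5 → Fin n => fun j : Fin 4 => x j.castSucc) (fun x hx => ?_) k
    (fun b hb => ?_)
  · rw [mem_filter]
    obtain ⟨h1, h2, h3, -⟩ := hS x hx
    exact ⟨mem_univ _, h1, h2, h3⟩
  · refine le_trans ?_ (hk (b i))
    refine Finset.card_le_card_of_injOn (fun x => x 4) (fun x hx => ?_) (fun x hx y hy hxy => ?_)
    · have hx' := mem_filter.mp (Finset.mem_coe.mp hx)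
      obtain ⟨-, -, -, h4⟩ := hS x hx'.1
      have h5 : x i.castSucc = b i := congrFun hx'.2 i
      rw [h5] at h4
      exact Finset.mem_coe.mpr (mem_filter.mpr ⟨mem_univ _, h4⟩)
    · have hx' := mem_filter.mp (Finset.mem_coe.mp hx)
      have hy' := mem_filter.mp (Finset.mem_coe.mp hy)
      funext j
      refine Fin.lastCases ?_ (fun j => ?_) j
      · exact hxy
      · exact (congrFun hx'.2 j).trans (congrFun hy'.2 j).symm

lemma card_free (B : Finset (Sym2 (Fin n))) (S : Finset (Fin 5 → Fin n))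
    (hS : ∀ x ∈ S, s(x 0, x 1) ∈ B ∧ s(x 1, x 2) ∈ B ∧ s(x 2, x 3) ∈ B) : S.card ≤ n * P4 B := by
  unfold P4
  refine Finset.card_le_mul_card_image_of_maps_to
    (f := fun x : Fin 5 → Fin n => fun j : Fin 4 => x j.castSucc) (fun x hx => ?_) n
    (fun b hb => ?_)
  · rw [mem_filter]
    obtain ⟨h1, h2, h3⟩ := hS x hx
    exact ⟨mem_univ _, h1, h2, h3⟩
  · refine le_trans ?_ (le_of_eq (Finset.card_fin n))
    refine Finset.card_le_card_of_injOn (fun x => x 4) (fun x hx => Finset.mem_coe.mpr (mem_univ _))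
      (fun x hx y hy hxy => ?_)
    have hx' := mem_filter.mp (Finset.mem_coe.mp hx)
    have hy' := mem_filter.mp (Finset.mem_coe.mp hy)
    funext j
    refine Fin.lastCases ?_ (fun j => ?_) j
    · exact hxy
    · exact (congrFun hx'.2 j).trans (congrFun hy'.2 j).symm

lemma card_tri (B : Finset (Sym2 (Fin n))) (q : ℕ)
    (Q : (Fin 3 → Fin n) → Finset (Fin n × Fin n)) (hQ : ∀ b, (Q b).card ≤ q)
    (S : Finset (Fin 5 → Fin n))
    (hS : ∀ x ∈ S, s(x 0, x 1) ∈ B ∧ s(x 1, x 2) ∈ B ∧ s(x 0, x 2) ∈ B ∧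
      (x 3, x 4) ∈ Q ![x 0, x 1, x 2]) : S.card ≤ q * T3 B := by
  unfold T3
  refine Finset.card_le_mul_card_image_of_maps_to
    (f := fun x : Fin 5 → Fin n => ![x 0, x 1, x 2]) (fun x hx => ?_) q
    (fun b hb => ?_)
  · rw [mem_filter]
    obtain ⟨h1, h2, h3, -⟩ := hS x hx
    exact ⟨mem_univ _, h1, h2, h3⟩
  · refine le_trans ?_ (hQ b)
    refine Finset.card_le_card_of_injOn (fun x => (x 3, x 4)) (fun x hx => ?_)
      (fun x hx y hy hxy => ?_)
    · have hx' := mem_filter.mp (Finset.mem_coe.mp hx)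
      obtain ⟨-, -, -, h4⟩ := hS x hx'.1
      have h5 : ![x 0, x 1, x 2] = b := hx'.2
      rw [h5] at h4
      exact Finset.mem_coe.mpr h4
    · have hx' := mem_filter.mp (Finset.mem_coe.mp hx)
      have hy' := mem_filter.mp (Finset.mem_coe.mp hy)
      have h6 : ![x 0, x 1, x 2] = ![y 0, y 1, y 2] := hx'.2.trans hy'.2.symm
      have h7 := congrFun h6 0
      have h8 := congrFun h6 1
      have h9 := congrFun h6 2
      simp only [Prod.mk.injEq] at hxy
      funext j
      fin_cases j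
      · exact h7
      · exact h8
      · exact h9
      · exact hxy.1
      · exact hxy.2

lemma card_edges (B : Finset (Sym2 (Fin n))) (k : ℕ)
    (hk : ∀ x : Fin n, ((univ : Finset (Fin n)).filter (fun y => s(x, y) ∈ B)).card ≤ k) :
    ((univ : Finset (Fin n × Fin n)).filter (fun z => s(z.1, z.2) ∈ B)).card ≤ k * n := by
  conv_rhs => rw [← Finset.card_fin n]
  refine Finset.card_le_mul_card_image_of_maps_to (f := Prod.fst) (fun x hx => mem_univ _) k
    (fun b hb => ?_)
  refine le_trans ?_ (hk b)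
  refine Finset.card_le_card_of_injOn Prod.snd (fun x hx => ?_) (fun x hx y hy hxy => ?_)
  · have hx' := mem_filter.mp (Finset.mem_coe.mp hx)
    have hx'' := mem_filter.mp hx'.1
    refine Finset.mem_coe.mpr (mem_filter.mpr ⟨mem_univ _, ?_⟩)
    rw [← hx'.2]
    exact hx''.2
  · have hx' := mem_filter.mp (Finset.mem_coe.mp hx)
    have hy' := mem_filter.mp (Finset.mem_coe.mp hy)
    exact Prod.ext (hx'.2.trans hy'.2.symm) hxy

theorem t_CNT : S_CNT := by
  intro n B D hD hdeg F hF
  obtain ⟨k, hk⟩ : ∃ k : ℕ, k = ⌊D⌋₊ := ⟨_, rfl⟩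
  have hkD : (k : ℝ) ≤ D := by rw [hk]; exact Nat.floor_le hD
  have hdeg' : ∀ x : Fin n, ((univ : Finset (Fin n)).filter (fun y => s(x, y) ∈ B)).card ≤ k :=
    fun x => by rw [hk]; exact Nat.le_floor (hdeg x)
  -- the three kinds of bounds
  have c4 : ∀ (i : Fin 4) (S : Finset (Fin 5 → Fin n)),
      (∀ x ∈ S, s(x 0, x 1) ∈ B ∧ s(x 1, x 2) ∈ B ∧ s(x 2, x 3) ∈ B ∧
        s(x i.castSucc, x 4) ∈ B) → (S.card : ℝ) ≤ max (D * P4 B) (n * D * T3 B) := by
    intro i S hS
    have h1 := card_path B k hdeg' i S hS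
    have h2 : (S.card : ℝ) ≤ (k : ℝ) * P4 B := by exact_mod_cast h1
    exact (h2.trans (mul_le_mul_of_nonneg_right hkD (Nat.cast_nonneg _))).trans (le_max_left _ _)
  have c3 : ∀ (Q : (Fin 3 → Fin n) → Finset (Fin n × Fin n)), (∀ b, (Q b).card ≤ k * n) →
      ∀ (S : Finset (Fin 5 → Fin n)), (∀ x ∈ S, s(x 0, x 1) ∈ B ∧ s(x 1, x 2) ∈ B ∧
        s(x 0, x 2) ∈ B ∧ (x 3, x 4) ∈ Q ![x 0, x 1, x 2]) →
      (S.card : ℝ) ≤ max (D * P4 B) (n * D * T3 B) := by
    intro Q hQ S hS
    have h1 := card_tri B (k * n) Q hQ S hS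
    have h2 : (S.card : ℝ) ≤ ((k : ℝ) * n) * T3 B := by exact_mod_cast h1
    refine (h2.trans ?_).trans (le_max_right _ _)
    apply mul_le_mul_of_nonneg_right _ (Nat.cast_nonneg _)
    rw [mul_comm (n : ℝ) D]
    exact mul_le_mul_of_nonneg_right hkD (Nat.cast_nonneg _)
  have hprod : ∀ v : Fin n, (((univ : Finset (Fin n)).filter (fun y => s(v, y) ∈ B)) ×ˢ
      (univ : Finset (Fin n))).card ≤ k * n := by
    intro v
    rw [Finset.card_product, Finset.card_fin]
    exact Nat.mul_le_mul_right _ (hdeg' v)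
  simp only [pats, List.mem_cons, List.not_mem_nil, or_false] at hF
  rcases hF with rfl | rfl | rfl | rfl | rfl | rfl | rfl | rfl | rfl | rfl
  · refine ⟨fun _ => ?_, fun h => absurd h (by decide), fun h => absurd h (by decide)⟩
    have h1 := card_free B ((univ : Finset (Fin 5 → Fin n)).filter (fun x =>
      ∀ p ∈ ({s(0, 1), s(1, 2), s(2, 3)} : Finset (Sym2 (Fin 5))), p.map x ∈ B)) (fun x hx => by
        have := (mem_filter.mp hx).2
        simpa using this)
    exact_mod_cast h1
  · refine ⟨fun h => absurd h (by decide), fun _ => c4 0 _ (fun x hx => ?_),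
      fun h => absurd h (by decide)⟩
    have := (mem_filter.mp hx).2
    simpa using this
  · refine ⟨fun h => absurd h (by decide), fun _ => c4 1 _ (fun x hx => ?_),
      fun h => absurd h (by decide)⟩
    have := (mem_filter.mp hx).2
    simpa using this
  · refine ⟨fun h => absurd h (by decide), fun _ => c4 2 _ (fun x hx => ?_),
      fun h => absurd h (by decide)⟩
    have := (mem_filter.mp hx).2
    simpa using this
  · refine ⟨fun h => absurd h (by decide), fun _ => c4 3 _ (fun x hx => ?_),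
      fun h => absurd h (by decide)⟩
    have := (mem_filter.mp hx).2
    simpa using this
  · refine ⟨fun h => absurd h (by decide), fun _ => c3 (fun b =>
      ((univ : Finset (Fin n)).filter (fun y => s(b 0, y) ∈ B)) ×ˢ univ) (fun b => hprod _) _
      (fun x hx => ?_), fun h => absurd h (by decide)⟩
    have := (mem_filter.mp hx).2
    simp only [Finset.mem_insert, Finset.mem_singleton, forall_eq_or_imp, forall_eq,
      Sym2.map_mk] at this
    obtain ⟨a1, a2, a3, a4⟩ := this
    exact ⟨a1, a2, a3, mem_product.mpr ⟨mem_filter.mpr ⟨mem_univ _, a4⟩, mem_univ _⟩⟩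
  · refine ⟨fun h => absurd h (by decide), fun _ => c3 (fun b =>
      ((univ : Finset (Fin n)).filter (fun y => s(b 1, y) ∈ B)) ×ˢ univ) (fun b => hprod _) _
      (fun x hx => ?_), fun h => absurd h (by decide)⟩
    have := (mem_filter.mp hx).2
    simp only [Finset.mem_insert, Finset.mem_singleton, forall_eq_or_imp, forall_eq,
      Sym2.map_mk] at this
    obtain ⟨a1, a2, a3, a4⟩ := this
    exact ⟨a1, a2, a3, mem_product.mpr ⟨mem_filter.mpr ⟨mem_univ _, a4⟩, mem_univ _⟩⟩
  · refine ⟨fun h => absurd h (by decide), fun _ => c3 (fun b =>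
      ((univ : Finset (Fin n)).filter (fun y => s(b 2, y) ∈ B)) ×ˢ univ) (fun b => hprod _) _
      (fun x hx => ?_), fun h => absurd h (by decide)⟩
    have := (mem_filter.mp hx).2
    simp only [Finset.mem_insert, Finset.mem_singleton, forall_eq_or_imp, forall_eq,
      Sym2.map_mk] at this
    obtain ⟨a1, a2, a3, a4⟩ := this
    exact ⟨a1, a2, a3, mem_product.mpr ⟨mem_filter.mpr ⟨mem_univ _, a4⟩, mem_univ _⟩⟩
  · refine ⟨fun h => absurd h (by decide), fun _ => c3 (fun _ =>
      (univ : Finset (Fin n × Fin n)).filter (fun z => s(z.1, z.2) ∈ B))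
      (fun b => card_edges B k hdeg') _ (fun x hx => ?_), fun h => absurd h (by decide)⟩
    have := (mem_filter.mp hx).2
    simpa using this
  · refine ⟨fun h => absurd h (by decide), fun h => absurd h (by decide), fun _ => ?_⟩
    have h1 := card_tri B (k * k) (fun b =>
      ((univ : Finset (Fin n)).filter (fun y => s(b 0, y) ∈ B)) ×ˢ
        ((univ : Finset (Fin n)).filter (fun y => s(b 0, y) ∈ B))) (fun b => by
          rw [Finset.card_product]
          exact Nat.mul_le_mul (hdeg' _) (hdeg' _))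
      ((univ : Finset (Fin 5 → Fin n)).filter (fun x =>
        ∀ p ∈ ({s(0, 1), s(0, 2), s(0, 3), s(0, 4), s(1, 2)} : Finset (Sym2 (Fin 5))),
          p.map x ∈ B)) (fun x hx => by
        have := (mem_filter.mp hx).2
        simp only [Finset.mem_insert, Finset.mem_singleton, forall_eq_or_imp, forall_eq,
          Sym2.map_mk] at this
        obtain ⟨a1, a2, a3, a4, a5⟩ := this
        refine ⟨a1, a5, a2, ?_⟩
        simp only [mem_product, mem_filter, mem_univ, true_and]
        exact ⟨a3, a4⟩)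
    have h2 : ((((univ : Finset (Fin 5 → Fin n)).filter (fun x =>
        ∀ p ∈ ({s(0, 1), s(0, 2), s(0, 3), s(0, 4), s(1, 2)} : Finset (Sym2 (Fin 5))),
          p.map x ∈ B)).card : ℕ) : ℝ) ≤ ((k : ℝ) * k) * T3 B := by exact_mod_cast h1
    refine h2.trans ?_
    apply mul_le_mul_of_nonneg_right _ (Nat.cast_nonneg _)
    rw [sq]
    exact mul_le_mul hkD hkD (Nat.cast_nonneg _) hD

end

end Pool.Agent.J4H18.K5
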